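import Pool.Agent.H1L39.All

/-!
# Symplectic classes: every class on quintic surfaces, double and triple planes

Let `M` be a minimal Kaehler surface of general type with canonical class `K`, let `L = K^perp` in
`H^2(M, ℤ)` and `V = L ⊗ ℝ`. A class `a` with `a^2 > 0`, `a·K > 0` is `l K + v` with `l > 0`,
`v ∈ V`, and `a^2 = q + (v, v)` with `q = l^2 K^2`. Let `A ⊂ V` be the set of all `v` such that
`l K + v` is the class of a symplectic form. `A` is open, it is invariant under the monodromy group
`Γ` of a family of surfaces which contains `M`, and for every Kaehler structure with Picard number
one and period plane `P = Re H^{2,0}` it contains `u + ρ` for all `ρ ∈ P`, `u ∈ N = P^perp` with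
`q + (u, u) > 0` (the Kaehler cone, Buchdahl and Lamari, plus the real part of a holomorphic
2-form). This property (`KaehlerDec`) passes to limits of period planes.

`DivisibilityOne` treats all `v` except the real multiples of lattice vectors `z` whose products
`(z, y)`, `y ∈ L`, have a common divisor `m > 1`, that is, of the vectors `w = z / m` in the dual
lattice `L^*` but not in `L`. Here these are treated with degenerations to surfaces with several
triangle singularities. If a surface `X_0` of the family has triangle singularities `p_1, …, p_r`
(and the family induces versal unfoldings of them), then the limits of the period planes contain,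
for every choice of positive planes `P_i` in the real spaces `E_i` of the Milnor lattices, all the
`P_i`, and the limits of `N` contain all vectors of `E_i` orthogonal to `P_i`: at each `p_i` a K3
surface, the tail, splits off, and the periods of the tails are dense in the period domain of `E_i`
(Pinkham, Looijenga); the other planes are limits of these. Here the Kaehler structures near such a
limit can be taken with Picard number one, and `v = u + ρ` for a limit of planes is the limit of the
decompositions of `v` for the nearby planes. This is `TailSystem`. A sum `w` of vectors `v_i` of the
dual Milnor lattices, all of norm `≥ 0` or all of norm `≤ 0`, then lies in `A` with all its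
multiples `t w`, `q + t^2 (w, w) > 0` (`tailSum_mem`: `v_i` of positive norm is put into `P_i`,
`v_i` of negative norm into `N`, and isotropic `v_i` have arbitrarily small components for suitable
`P_i`). Eichler's criterion (`eichlerN`, `class_line`) moves every vector of `L^*` into such a sum
with the same norm and, up to sign, the same class modulo `L`. So the theorem: if all norms and
classes are represented by such sums, `A` contains every `v` with `q + (v, v) > 0`.

* Quintic surfaces, `L^*/L` of order 5 generated by the class of norm `4/5` modulo 2 of
  `y - K/5`, `y·K = 1`. `X_0 = {w h + x^5 = 0}`, where the quartic `h` touches the line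
  `D = {w = x = 0}` in two points, has two `W12` points, and `5 D` is a hyperplane section;
  `X_0 = {Q h + x^5 = 0}`, where the cubic `h` touches the conic `D = {Q = x = 0}` in three points,
  has three `W12` points, and `5 D` is a quadric section (`w`, `Q`, `h` do not contain `x`). The
  class of `D` minus a multiple of `K` is a sum of vectors `v_i` of the dual Milnor lattices with
  norms `2/5` modulo 2, and the class of `2 D` a sum of vectors with norms `-2/5` modulo 2. The
  norms reached are: `2/5 + 2/5 + 2j` and `3 (-2/5) - 2j` (classes `±1`), `3 (2/5) + 2j` and
  `-2/5 - 2/5 - 2j` (classes `±2`), `j ≥ 0`. These are all norms in these classes. (The unfoldings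
  are versal in negative weights up to one linear relation, whose leading part consists of the
  coefficients of highest weight; it is met by scaling the tails separately.)
* Double planes branched along smooth curves of degree `2k ≥ 8`, `L^*/L` of order 2. The branch
  curve of `X_0` is a line and a curve of degree `2k - 1` with on the line one `Z11` (`k` even) or
  one `E13` (`k` odd) and `(k-2)/2` resp. `(k-3)/2` points `Z12` (intersection numbers 3, 5, 4 with
  the line). Half the branch line minus a multiple of `K` is a sum of a vector of norm `1/2` resp.
  `-1/2` modulo 2, which can be any such number, in the first tail and isotropic vectors in the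
  others.

* Surfaces of degree `3k` in `P(1,1,1,k)`, `k ≥ 2` (triple planes), `L^*/L` of order 3 generated by
  a class of norm `2/3` modulo 2. `X_0 = {x^3 + w h = 0}`, where the plane curve `h` of degree
  `3k - 1` has on the line `D = {w = x = 0}` a cusp (with another tangent; `Q10`) and `k - 1` nodes
  with one branch tangent to the line (`Q12`), and `3 D` is a hyperplane section. The first tail
  carries a vector of norm `2/3` modulo 2, which can be any such number, the others isotropic
  vectors. (For `k ≥ 3` there are `k - 2` linear relations, met by scaling the tails separately.)

So Q1 has a positive answer for every class on these surfaces, and on all surfaces deformation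
equivalent to them: all minimal surfaces with `K^2 = 5`, `p_g = 4`, all minimal surfaces with
`K^2 = 2`, `p_g = 3` and all minimal surfaces with `K^2 = 3`, `p_g = 3` (Horikawa).
-/

namespace Pool.Agent.Results.MP_39a524_gt.AllClasses

open Pool.Agent.LI39 Pool.Agent.H1L39

/-- If the periods of Kaehler structures contain all positive planes of the first two hyperbolic
planes, and every vector of `L^*` outside `L` which takes the value one on `L` has the same norm and
up to sign the same class modulo `L` as a sum of vectors in tails, then `A` contains every `v` with
`q + (v, v) > 0`. -/
theorem result {n : ℕ} (G : Matrix (Fin n) (Fin n) ℤ) (hG : G.IsSymm)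
    (heven : ∀ i, Even (G i i)) (hdet : G.det ≠ 0)
    (Γ : Subgroup (LR n ≃ₗ[ℝ] LR n)) (hΓ : ∀ γ, IsTransv G γ → γ ∈ Γ)
    (q : ℝ) (hq : 0 < q) (A : Set (LR n)) (hopen : IsOpen A)
    (hmon : ∀ γ ∈ Γ, ∀ v ∈ A, γ v ∈ A) (hT : Tails G q A)
    (hsum : ∀ w ∈ dualL G, w ∉ latticeL n → (∃ y ∈ latticeL n, formL G w y = 1) →
      ∃ w', TailSum G q A w' ∧ formL G w' w' = formL G w w ∧
        (w' - w ∈ latticeL n ∨ w' + w ∈ latticeL n) ∧ ∃ y ∈ latticeL n, formL G w' y = 1)
    (v : LR n) (hv : 0 < q + formL G v v) : v ∈ A :=
  all_classes hG heven hdet Γ hΓ hq hopen hmon hT hsum hv

end Pool.Agent.Results.MP_39a524_gt.AllClasses
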