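import Pool.Agent.LI39.Periods

/-!
# Symplectic classes: dense periods

Let `M` be a minimal Kaehler surface of general type with `p_g = 1`, `L = K^perp` in `H^2(M, ℤ)`.
The form on `V = L ⊗ ℝ` has signature `(2, m)`, and in suitable real coordinates it is
`sig v w = v_1 w_1 + v_2 w_2 - ∑ v_i w_i` on `ℝ × ℝ × ℝ^m`. A class `a` with `a^2 > 0`, `a·K > 0` is
`l K + v` with `l > 0`, `v ∈ V` and `a^2 = q + (v, v)`, `q = l^2 K^2`. Let `A` be the set of all `v`
such that `l K + v` is the class of a symplectic form. If a Kaehler structure (in the deformation
class of `M`, transported to `M`) has Picard number one and the class of its holomorphic 2-form is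
`x + i y`, then `A` contains `u + s x + t y` for all real `s`, `t` and all `u` orthogonal to `x` and
`y` with `q + (u, u) > 0` (Buchdahl and Lamari for the Kaehler cone; adding the real part of a
holomorphic 2-form keeps a Kaehler form symplectic).

The theorem: if the periods `x + i y` which occur in this way are dense in the set of all
`x + i y` with `(x, x) = (y, y) > 0`, `(x, y) = 0`, then `A` contains every `v` with
`q + (v, v) > 0`, so that every class of the question is symplectic.

For `K^2 = 1`, `p_g = 1` (complete intersections of type (6,6) in `P(1,2,2,3,3)`, one irreducible
family; Catanese, Todorov, Kunev) the period map is dominant (Catanese): the moduli space and the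
period domain both have dimension `m = 18`. Hence the monodromy group has finite index in
`O(K^perp)`, the quotient of the period domain by it is quasi-projective (Baily and Borel), the
period map to this quotient is algebraic (Borel), its image contains a Zariski open dense set, and
the periods with Picard number one, taken with the markings which come from paths, are dense (the
condition on `D` depends only on the plane `⟨x, y⟩`, so both orientations are reached). Hence the
question has a positive answer for all these surfaces. By Noether's inequality a minimal surface of
general type with `K^2 = 1` has `p_g ≤ 2`; for `p_g = 2` see the hand-in `DivisibilityOne`.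

Proof. One has to find, for a given `v` with `q + (v, v) > 0`, a plane `⟨x, y⟩` such that the
component `u` of `v` orthogonal to the plane satisfies `q + (u, u) > 0`: this is an open condition,
so a dense set of planes contains one. For `(v, v) ≠ 0` take the plane through `v` or orthogonal
to `v`; for isotropic `v` a plane near to `v` (`exists_frame`).
-/

namespace Pool.Agent.Results.MP_39a524_gt.DensePeriods

open Pool.Agent.LI39

/-- If the periods of the Kaehler structures are dense in the period domain of signature `(2, m)`,
then all classes `v` with `q + (v, v) > 0` are reached. -/
theorem result (m : ℕ) (q : ℝ) (hq : 0 < q) (A : Set (ℝ × ℝ × (Fin m → ℝ)))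
    (D : Set ((ℝ × ℝ × (Fin m → ℝ)) × (ℝ × ℝ × (Fin m → ℝ)))) (hD : D ⊆ Frames m)
    (hdense : Frames m ⊆ closure D)
    (hK : ∀ p ∈ D, ∀ u, sig u p.1 = 0 → sig u p.2 = 0 → 0 < q + sig u u →
      ∀ s t : ℝ, u + s • p.1 + t • p.2 ∈ A)
    (v : ℝ × ℝ × (Fin m → ℝ)) (hv : 0 < q + sig v v) : v ∈ A :=
  dense_periods hq hD hdense hK hv

end Pool.Agent.Results.MP_39a524_gt.DensePeriods
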