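import Pool.Agent.LI39.Tails

/-!
# Symplectic classes: K3 tails and classes of divisibility one

Let `M` be a minimal Kaehler surface of general type with canonical class `K`, let `L = K^perp` in
`H^2(M, ℤ)` and `V = L ⊗ ℝ`. A class `a` with `a^2 > 0`, `a·K > 0` is `l K + v` with `l > 0`,
`v ∈ V`, and `a^2 = q + (v, v)` with `q = l^2 K^2`. Let `A ⊂ V` be the set of all `v` such that
`l K + v` is the class of a symplectic form. `A` is open, it is invariant under the monodromy group
`Γ` of a family of surfaces which contains `M`, and for every Kaehler structure with Picard number
one and period plane `P = Re H^{2,0}` it contains `u + ρ` for all `ρ ∈ P`, `u ∈ N = P^perp` with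
`q + (u, u) > 0` (the Kaehler cone, Buchdahl and Lamari, plus the real part of a holomorphic
2-form). This property passes to limits of period planes.

If the family contains a surface with an `E12` singularity `x^2 + y^3 + z^7` which it unfolds
versally, then the limits of the period planes contain all positive planes of the real space of the
Milnor lattice `U ⊕ U ⊕ E8`: the surfaces split off a K3 surface, the tail (Pinkham, Looijenga),
whose period is arbitrary. The definition `Tails` asks this only for the planes in the real space of
`U ⊕ U`. If in addition `Γ` contains all Eichler transvections of `L = U ⊕ U ⊕ U ⊕ (ℤ^n, G)`, then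
the theorem gives: every `v` with `q + (v, v) > 0` is in `A`, unless `v` is a real multiple of a
primitive vector `z ∈ L` for which the integers `(z, y)`, `y ∈ L`, have a common divisor `> 1`.

* Surfaces `X` of degree `ab` in the weighted projective space `P(1,1,a,b)`, `1 < a < b` coprime,
  `(a,b) ≠ (2,3)`: here `K = (ab - a - b - 2) H` with `H^2 = 1`, so `L = H^perp` is even and
  unimodular, no `z` is left, and every class of the question is symplectic. The case
  `(a,b) = (2,5)` is the case of all minimal surfaces with `K^2 = 1`, `p_g = 2`.
* Surfaces of degree `d ≥ 5` in `P^3` and double planes branched along smooth curves of degree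
  `2k ≥ 8`: the discriminant group of `L` is cyclic of order `d` (or `2`), and only the planes
  `⟨K, z⟩` with `z` primitive in `L` of divisibility `m > 1`, `m` a divisor of `d` (or `m = 2`), are
  left.

`E12` singularities occur in all these families and are versally unfolded; on quintics for example
(helper13) `x^2 + 2xz^3 + y^3 - 3y^2z^2 + 3yz^4 + y^2z^3 = (x+z^3)^2 + (y-z^2)^3 + y^2z^3`.
In all these families the monodromy group contains the transvections: Beauville for `P^3`, Ebeling
(Invent. Math. 77, 1984) for the others, since the complement of the curve at infinity is the Milnor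
fibre of a Brieskorn singularity.

Proof. Eichler's criterion moves a vector of divisibility one into `U ⊕ U`, and every vector of
`U ⊕ U` is `u + ρ` for a suitable plane (`tails_UU`). For a vector of irrational direction the orbit
closure theorem of the files `Synd`, `Toral`, `Dense` (proved there from scratch, with elementary
means) says that a closed set which is invariant under the transvections and contains `v` contains
all vectors of the same norm, among them a vector of `U ⊕ U`.
-/

namespace Pool.Agent.Results.MP_39a524_gt.DivisibilityOne

open Pool.Agent.LI39

/-- An open set which is invariant under the Eichler transvections of `U ⊕ U ⊕ U ⊕ (ℤ^n, G)` and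
contains the classes of Kaehler structures with all periods in `U ⊕ U` contains every class `v`
with `q + (v, v) > 0` whose direction is irrational or of divisibility one. -/
theorem result {n : ℕ} (G : Matrix (Fin n) (Fin n) ℤ) (hG : G.IsSymm)
    (heven : ∀ i, Even (G i i)) (hdet : G.det ≠ 0)
    (Γ : Subgroup (LR n ≃ₗ[ℝ] LR n)) (hΓ : ∀ γ, IsTransv G γ → γ ∈ Γ)
    (q : ℝ) (hq : 0 < q) (A : Set (LR n)) (hopen : IsOpen A)
    (hmon : ∀ γ ∈ Γ, ∀ v ∈ A, γ v ∈ A) (hT : Tails G q A)
    (v : LR n) (hv : 0 < q + formL G v v)
    (hz : (∀ t : ℝ, ∀ z ∈ latticeL n, v ≠ t • z) ∨
      ∃ z ∈ latticeL n, ∃ y ∈ latticeL n, formL G z y = 1 ∧ ∃ t : ℝ, v = t • z) : v ∈ A :=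
  tail_classes hG heven hdet Γ hΓ hq hopen hmon hT hv hz

end Pool.Agent.Results.MP_39a524_gt.DivisibilityOne
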