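import Pool.Agent.LI39.Stmt

/-!
# Symplectic classes: exceptional planes, up to monodromy

Setting. Let `M` be a minimal Kaehler surface of general type with `b^+ > 1`, canonical class `K`,
`L = K^perp` in `H^2(M, ℤ)` modulo torsion, `V = L ⊗ ℝ` (here `LR n`) with its form `(., .)`
(here `formL G`), `L = U ⊕ U ⊕ U ⊕ (ℤ^n, G)`. The classes `a` of the question (`a^2 > 0`,
`a·c < 0`) are the `a = l K + v` with `l > 0`, `v ∈ V`, `l^2 K^2 + (v, v) > 0`.

Facts about symplectic forms which are NOT formalised here and enter as hypotheses:

* the classes of symplectic forms are an open set in `H^2(M, ℝ)`: `Symp`, the set of all `(l, v)`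
  such that `l K + v` is the class of a symplectic form, is open in `F × V` with `F = ℝ`;
* diffeomorphisms act: `Symp` is invariant under the monodromy group `Γ` of every family of
  surfaces which contains `M` (monodromy fixes `K`), and for complete intersections `Γ` has finite
  index in `O(L)` (Beauville 1986; Ebeling 1984), which is `Γ.relIndex (OL G) ≠ 0`;
* if some Kaehler structure in the deformation class of `M` has Picard number one (Noether and
  Lefschetz: the very general complete intersection of general type), its Kaehler cone is
  `{α ∈ H^{1,1} : α^2 > 0, α·K > 0}` (Buchdahl, Lamari), and a Kaehler form plus the real part of a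
  holomorphic 2-form is symplectic. So `l K + u + ρ` is the class of a symplectic form for all
  `ρ ∈ P = Re H^{2,0}`, `u ∈ N`, the real `(1,1)`-part of `V`, with `l > 0` and
  `l^2 K^2 + (u, u) > 0`: this is `KaehlerDec G q A N P` with `q = l^2 K^2` and
  `A = {v | (l, v) ∈ Symp}`.

The theorem, for `F` a point and `l = 1` (enough for complete intersections: `a` is a symplectic
class if and only if `t a` is, `t > 0`): for every `ε > 0` there are finitely many `s ∈ L` such that
every class `K + v` with `ε ≤ K^2 + (v, v)`, `(v, v) ≤ 1 / ε` which is not the class of a symplectic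
form lies in a plane `⟨K, γ s⟩`, `γ ∈ Γ`. In particular (choose `ε` small) every class of the
question which lies in no plane `⟨K, s⟩` with `s` integral is the class of a symplectic form, and
only finitely many planes up to monodromy are exceptional in each range `a^2 ≥ ε (a·K)^2`,
`(a·K)^2 ≥ ε a^2`. All complete intersections of general type have `L = U ⊕ U ⊕ U ⊕ (ℤ^n, G)`:
Nikulin (`p_g ≥ 4`, and `L` is even with cyclic discriminant group). General `F`: for smooth
surfaces `S` in a very ample system on a threefold `Y`, `F` parametrises the ample classes which
come from `Y`, the vanishing lattice replaces `L`, and `N`, `P` may depend on the class; the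
conclusion is then uniform for ample classes in a compact set.

Proof (helper files in `Pool/Agent/LI39`). `Synd`, `Toral`, `Dense`: if `Z ⊂ V` is closed and
invariant under Eichler transvections `E(e, u)` with `e` in the four standard isotropic vectors
of the first two planes and `u` in `d L`, then `Z` contains with a vector of irrational direction
all vectors of the same norm. This is the case of unipotent orbit closures (Ratner, Dani and
Margulis) which is needed, proved from scratch with two-dimensional tori. `Main`, `Group`: a
subgroup of finite index contains these transvections. `Final`: on every level set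
`(v, v) = c > -q` there are vectors `u + ρ`, so `Z = ` complement of `A` contains no vector of
irrational direction. `Accum`, `Isol`, `Reduce`, `Dich`, `Dich2`: a uniform version, exceptional
vectors which go to infinity in `V` modulo transvections, or accumulate, produce an irrational
exceptional vector; `Finite` puts this together by compactness.

Earlier work: Noether-Lefschetz theory, Buchdahl and Lamari (Kaehler cones), Nikulin (lattices),
Beauville and Ebeling (monodromy), Ratner, Dani and Margulis (orbit closures), Verbitsky (ergodic
complex structures), Entov and Verbitsky (K3 surfaces and tori), Hamilton (closure of the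
symplectic classes on `E(n)`), Draghici (classes near `K`).
-/

namespace Pool.Agent.Results.MP_39a524_gt.ExceptionalPlanes

open Pool.Agent.LI39

/-- Let `Symp` be open in `F × V`, invariant under `Γ` of finite index in `O(L)`, and such that
over each point of the compact set `K` it contains the classes `u + ρ` of one Kaehler structure.
Then up to `Γ` only finitely many lines through lattice vectors contain exceptional classes `v`
with `ε ≤ q f + (v, v)` and `(v, v) ≤ 1 / ε`. -/
theorem result {n : ℕ} (G : Matrix (Fin n) (Fin n) ℤ) (hG : G.IsSymm) (hdet : G.det ≠ 0)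
    (Γ : Subgroup (LR n ≃ₗ[ℝ] LR n)) (hΓ : Γ.relIndex (OL G) ≠ 0)
    (F : Type*) [TopologicalSpace F] [FirstCountableTopology F]
    (q : F → ℝ) (hq : Continuous q)
    (Symp : Set (F × LR n)) (hopen : IsOpen Symp)
    (hmon : ∀ γ ∈ Γ, ∀ f v, (f, v) ∈ Symp → (f, γ v) ∈ Symp)
    (K : Set F) (hK : IsCompact K)
    (hKa : ∀ f ∈ K, 0 < q f ∧ ∃ N P, KaehlerDec G (q f) {v | (f, v) ∈ Symp} N P)
    (ε : ℝ) (hε : 0 < ε) :
    ∃ S ⊆ latticeL n, S.Finite ∧ ∀ f ∈ K, ∀ v, ε ≤ q f + formL G v v →
      formL G v v ≤ 1 / ε → (f, v) ∉ Symp → v ∈ Lines (Γ ⊓ OL G) S := by
  obtain ⟨S, h1, h2, h3⟩ := exceptional hG hdet Γ hΓ hq hopen hmon hK hKa hε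
  refine ⟨S, h2, h1, fun f hf v hv1 hv2 hv => ?_⟩
  obtain ⟨γ, hγ, hγo, s, hs, t, ht⟩ := h3 f hf v hv1 hv2 hv
  exact ⟨γ, ⟨hγ, hγo⟩, s, hs, t, ht⟩

end Pool.Agent.Results.MP_39a524_gt.ExceptionalPlanes
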